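import Pool.Agent.Helper81.Square.Final

/-!
MP_115f12_co: every proper minor-closed class has square colourings with boundedly many colours.
-/

namespace Pool.Agent.Results.MP_115f12_co.MinorFree

open Pool.Agent.Helper81.Square

/-- For every `t` there is a constant `c` such that every finite graph without a `K_t` minor has
a square colouring with `c` colours (planar graphs have no `K_5` minor). -/
theorem result : ∀ t : ℕ, ∃ c : ℕ, ∀ (V : Type) [Fintype V] (G : SimpleGraph V),
    ¬ HasCliqueMinor G t → ∃ φ : V → Fin c, IsSquareColouring G φ := by
  intro t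
  obtain ⟨c, hc⟩ := of_weakTwo (DD t)
  exact ⟨c, fun V _ G hG => hc V G (weakTwo_of_minor t V G
    (fun h => hG ((cmOn_iff G t).mp h)))⟩

end Pool.Agent.Results.MP_115f12_co.MinorFree
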