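import Pool.Agent.Helper81.Square.Final

/-!
MP_115f12_co, Q1: every planar graph has a square colouring with a bounded number of colours.
-/

namespace Pool.Agent.Results.MP_115f12_co.SquareColouring

open Pool.Agent.Helper81.Square

/-- **Answer to Q1 (yes).** There is a constant `c` such that every finite planar graph has a
square colouring with `c` colours. -/
theorem result : ∃ c : ℕ, ∀ (V : Type) [Fintype V] (G : SimpleGraph V), IsPlanar G →
    ∃ φ : V → Fin c, IsSquareColouring G φ := by
  obtain ⟨c, hc⟩ := of_weakTwo (DD 5)
  exact ⟨c, fun V _ G hG => hc V G (weakTwo_of_planar V G hG)⟩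

end Pool.Agent.Results.MP_115f12_co.SquareColouring
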